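import Mathlib
import Pool.Agent.MP_44cb5f_an.Final

set_option autoImplicit false

namespace Pool.Agent.Results.MP_44cb5f_an.MinimisersArePolygons

/-- Every minimiser of `J` among planar convex sets is a polygon, and the number of its vertices
is bounded by one constant. -/
theorem result : ∃ N : ℕ, ∀ Ω : Set ℂ, Pool.Agent.MP_44cb5f_an.IsMin Ω →
    ∃ S : Finset ℂ, S.card ≤ N ∧ Ω = interior (convexHull ℝ (S : Set ℂ)) :=
  Pool.Agent.MP_44cb5f_an.fTop

end Pool.Agent.Results.MP_44cb5f_an.MinimisersArePolygons
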