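import Mathlib
import Pool.Agent.MP_44cb5f_an.Par.Main

set_option autoImplicit false

namespace Pool.Agent.Results.MP_44cb5f_an.Parallelograms

open Pool.Agent.MP_44cb5f_an

/-- Every nondegenerate parallelogram that is not a square has a larger value of `J` than the
unit square. -/
theorem result : ∀ a v w : ℂ, v.re * w.im - v.im * w.re ≠ 0 →
    ¬(‖v‖ = ‖w‖ ∧ v.re * w.re + v.im * w.im = 0) →
    J (par 0 1 Complex.I) < J (par a v w) :=
  fun _ _ _ h hsq => Par.main h hsq

end Pool.Agent.Results.MP_44cb5f_an.Parallelograms
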